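import Mathlib

set_option autoImplicit false
open MvPolynomial

namespace Pool.Agent.H559Z.Toric

variable {n : ℕ}

/-- positive part as an exponent vector -/
noncomputable def pos (u : Fin n → ℤ) : Fin n →₀ ℕ :=
  Finsupp.equivFunOnFinite.symm (fun i => (u i).toNat)

@[simp] theorem pos_apply (u : Fin n → ℤ) (i : Fin n) : pos u i = (u i).toNat := rfl

noncomputable def latI (L : Submodule ℤ (Fin n → ℤ)) : Ideal (MvPolynomial (Fin n) ℚ) :=
  Ideal.span {p | ∃ u ∈ L, p = monomial (pos u) (1 : ℚ) - monomial (pos (-u)) (1 : ℚ)}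

def dot (w : Fin n → ℝ) (u : Fin n → ℤ) : ℝ := ∑ i, w i * (u i : ℝ)

def wt (w : Fin n → ℝ) (m : Fin n →₀ ℕ) : ℝ := ∑ i, w i * ((m i : ℕ) : ℝ)

def dif (a b : Fin n →₀ ℕ) : Fin n → ℤ := fun i => (a i : ℤ) - b i

theorem dot_dif (w : Fin n → ℝ) (a b : Fin n →₀ ℕ) : dot w (dif a b) = wt w a - wt w b := by
  simp only [dot, dif, wt, ← Finset.sum_sub_distrib]
  refine Finset.sum_congr rfl fun i _ => ?_
  push_cast; ring

theorem dot_neg (w : Fin n → ℝ) (u : Fin n → ℤ) : dot w (-u) = -dot w u := by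
  simp [dot]

theorem binom_mem (L : Submodule ℤ (Fin n → ℤ)) (a b : Fin n →₀ ℕ) (h : dif a b ∈ L) :
    monomial a (1 : ℚ) - monomial b 1 ∈ latI L := by
  have h1 : monomial (pos (dif a b)) (1 : ℚ) - monomial (pos (-dif a b)) 1 ∈ latI L :=
    Ideal.subset_span ⟨_, h, rfl⟩
  have h2 := Ideal.mul_mem_left _ (monomial (a ⊓ b) (1 : ℚ)) h1
  rw [mul_sub, monomial_mul, monomial_mul, one_mul] at h2
  have e1 : a ⊓ b + pos (dif a b) = a := by
    ext i; simp only [Finsupp.add_apply, Finsupp.inf_apply, pos_apply, dif]; omega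
  have e2 : a ⊓ b + pos (-dif a b) = b := by
    ext i; simp only [Finsupp.add_apply, Finsupp.inf_apply, pos_apply, dif, Pi.neg_apply]; omega
  rwa [e1, e2] at h2

noncomputable def cls (L : Submodule ℤ (Fin n → ℤ)) : (Fin n →₀ ℕ) →+ ((Fin n → ℤ) ⧸ L) where
  toFun m := L.mkQ (fun i => (m i : ℤ))
  map_zero' := by
    have : (fun i => (((0 : Fin n →₀ ℕ) i : ℕ) : ℤ)) = 0 := by funext i; simp
    rw [this, map_zero]
  map_add' a b := by
    rw [← map_add]; congr 1

theorem cls_eq (L : Submodule ℤ (Fin n → ℤ)) (a b : Fin n →₀ ℕ) :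
    cls L a = cls L b ↔ dif a b ∈ L := by
  show L.mkQ _ = L.mkQ _ ↔ _
  rw [Submodule.mkQ_apply, Submodule.mkQ_apply, Submodule.Quotient.eq]
  rfl

theorem exists_partner (L : Submodule ℤ (Fin n → ℤ)) {f : MvPolynomial (Fin n) ℚ}
    (hf : f ∈ latI L) {m : Fin n →₀ ℕ} (hm : m ∈ f.support) :
    ∃ m' ∈ f.support, m' ≠ m ∧ dif m m' ∈ L := by
  classical
  let φ : MvPolynomial (Fin n) ℚ →+* AddMonoidAlgebra ℚ ((Fin n → ℤ) ⧸ L) :=
    AddMonoidAlgebra.mapDomainRingHom ℚ (cls L)
  have hφ : ∀ a (r : ℚ), φ (monomial a r) = AddMonoidAlgebra.single (cls L a) r := by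
    intro a r
    show AddMonoidAlgebra.mapDomain _ (AddMonoidAlgebra.single a r) = _
    rw [AddMonoidAlgebra.mapDomain_single]
  have hker : latI L ≤ RingHom.ker φ := by
    rw [latI, Ideal.span_le]
    rintro p ⟨u, hu, rfl⟩
    rw [SetLike.mem_coe, RingHom.mem_ker, map_sub, hφ, hφ, sub_eq_zero]
    congr 1
    rw [cls_eq]
    convert hu using 1
    funext i
    simp only [dif, pos_apply, Pi.neg_apply]; omega
  have h0 : φ f = 0 := hker hf
  by_contra hcon
  push Not at hcon
  rw [f.as_sum, map_sum] at h0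
  simp only [hφ] at h0
  have h1 := congrArg (fun x : AddMonoidAlgebra ℚ ((Fin n → ℤ) ⧸ L) => x.coeff (cls L m)) h0
  simp only [AddMonoidAlgebra.coeff_sum, Finsupp.finsetSum_apply,
    AddMonoidAlgebra.coeff_zero, Finsupp.zero_apply] at h1
  rw [Finset.sum_eq_single m] at h1
  · rw [AddMonoidAlgebra.coeff_single, Finsupp.single_eq_same] at h1
    exact (mem_support_iff.1 hm) h1
  · intro b hb hbm
    rw [AddMonoidAlgebra.coeff_single, Finsupp.single_apply, if_neg]
    intro h
    exact hcon b hb hbm ((cls_eq L m b).1 h.symm)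
  · exact fun h => absurd hm h

noncomputable def inW (w : Fin n → ℝ) (f : MvPolynomial (Fin n) ℚ) : MvPolynomial (Fin n) ℚ :=
  ∑ m ∈ f.support.filter (fun m => ∀ m' ∈ f.support, wt w m' ≤ wt w m), monomial m (coeff m f)

theorem inW_binom (w : Fin n → ℝ) (a b : Fin n →₀ ℕ) (h : wt w b < wt w a) :
    inW w (monomial a (1 : ℚ) - monomial b 1) = monomial a 1 := by
  classical
  have hab : a ≠ b := by rintro rfl; exact lt_irrefl _ h
  have hc : ∀ m, coeff m (monomial a (1 : ℚ) - monomial b 1) =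
      (if a = m then 1 else 0) - (if b = m then 1 else 0) := by
    intro m; rw [coeff_sub, coeff_monomial, coeff_monomial]
  have hs : ∀ m, m ∈ (monomial a (1 : ℚ) - monomial b 1).support ↔ m = a ∨ m = b := by
    intro m
    rw [mem_support_iff, hc]
    by_cases h1 : a = m
    · subst h1; simp [hab.symm]
    · by_cases h2 : b = m
      · subst h2; simp [hab]
      · simp [h1, h2, Ne.symm h1, Ne.symm h2]
  have hfil : (monomial a (1 : ℚ) - monomial b 1).support.filter
      (fun m => ∀ m' ∈ (monomial a (1 : ℚ) - monomial b 1).support, wt w m' ≤ wt w m) = {a} := by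
    ext m
    simp only [Finset.mem_filter, hs, Finset.mem_singleton]
    constructor
    · rintro ⟨rfl | rfl, h2⟩
      · rfl
      · exact absurd (h2 a (Or.inl rfl)) (not_le.2 h)
    · rintro rfl
      refine ⟨Or.inl rfl, ?_⟩
      rintro m' (rfl | rfl)
      · exact le_rfl
      · exact h.le
  rw [inW, hfil, Finset.sum_singleton, hc]
  simp [hab.symm]

section
variable {k : ℕ} (L : Submodule ℤ (Fin n → ℤ)) (c : Fin k → Fin n → ℤ)

def Pos (u : Fin n → ℤ) : Prop := ∀ w : Fin n → ℝ, (∀ i, 0 < dot w (c i)) → 0 < dot w u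

def NS : Set (Fin n →₀ ℕ) := {a | ∃ u ∈ L, Pos c u ∧ ∀ r, u r ≤ a r}

noncomputable def J : Ideal (MvPolynomial (Fin n) ℚ) :=
  Ideal.span ((fun s => monomial s (1 : ℚ)) '' NS L c)

variable {L c}

theorem max_mem_NS
    (hA : ∀ u ∈ L, u ≠ 0 → ¬ Pos c (-u) → ∃ u' ∈ L, Pos c u' ∧ ∀ r, u' r ≤ max 0 (u r))
    {w : Fin n → ℝ} (hw : ∀ i, 0 < dot w (c i)) {f : MvPolynomial (Fin n) ℚ} (hf : f ∈ latI L)
    {m : Fin n →₀ ℕ} (hm : m ∈ f.support) (hmax : ∀ m' ∈ f.support, wt w m' ≤ wt w m) :
    m ∈ NS L c := by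
  obtain ⟨m', hm', hne, hL⟩ := exists_partner L hf hm
  have h0 : dif m m' ≠ 0 := by
    intro h
    apply hne
    ext i
    have := congrFun h i
    simp only [dif, Pi.zero_apply] at this
    omega
  have h1 : ¬ Pos c (-dif m m') := by
    intro h
    have := h w hw
    rw [dot_neg, dot_dif] at this
    linarith [hmax m' hm']
  obtain ⟨u', hu', hp, hle⟩ := hA _ hL h0 h1
  refine ⟨u', hu', hp, fun r => (hle r).trans ?_⟩
  simp only [dif]; omega

theorem NS_binom {a : Fin n →₀ ℕ} (ha : a ∈ NS L c) :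
    ∃ b : Fin n →₀ ℕ, dif a b ∈ L ∧ Pos c (dif a b) := by
  obtain ⟨u, hu, hp, hle⟩ := ha
  have : dif a (pos (fun r => (a r : ℤ) - u r)) = u := by
    funext r
    have := hle r
    simp only [dif, pos_apply]; omega
  exact ⟨_, this.symm ▸ hu, this.symm ▸ hp⟩

theorem inW_span
    (hA : ∀ u ∈ L, u ≠ 0 → ¬ Pos c (-u) → ∃ u' ∈ L, Pos c u' ∧ ∀ r, u' r ≤ max 0 (u r))
    {w : Fin n → ℝ} (hw : ∀ i, 0 < dot w (c i)) :
    Ideal.span {g | ∃ f ∈ latI L, g = inW w f} = J L c := by
  apply le_antisymm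
  · rw [Ideal.span_le]
    rintro g ⟨f, hf, rfl⟩
    refine Ideal.sum_mem _ fun m hm => ?_
    rw [Finset.mem_filter] at hm
    have h1 : monomial m (1 : ℚ) ∈ J L c :=
      Ideal.subset_span ⟨m, max_mem_NS hA hw hf hm.1 hm.2, rfl⟩
    have h2 := Ideal.mul_mem_left _ (C (coeff m f)) h1
    rwa [C_mul_monomial, mul_one] at h2
  · rw [J, Ideal.span_le]
    rintro g ⟨a, ha, rfl⟩
    obtain ⟨b, hL, hp⟩ := NS_binom ha
    have h1 := hp w hw
    rw [dot_dif] at h1
    exact Ideal.subset_span ⟨_, binom_mem L a b hL, (inW_binom w a b (by linarith)).symm⟩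

theorem wt_one (m : Fin n →₀ ℕ) : wt (fun _ => 1) m = (m.degree : ℝ) := by
  simp [wt, Finsupp.degree_eq_sum]

/-- a monomial order, lifted to an arbitrary universe -/
noncomputable def liftU.{u} (m : MonomialOrder.{0, 0} (Fin n)) : MonomialOrder.{0, u} (Fin n) where
  syn := ULift.{u} m.syn
  isOrderedAddMonoid_syn :=
    ⟨fun a b h c => by
      have h' : a.down ≤ b.down := h
      show a.down + c.down ≤ b.down + c.down
      gcongr,
     fun a b h c => by
      have h' : a.down ≤ b.down := h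
      show c.down + a.down ≤ c.down + b.down
      gcongr⟩
  toSyn := m.toSyn.trans AddEquiv.ulift.symm
  toSyn_monotone _ _ h := m.toSyn_monotone h

theorem liftU_le (m : MonomialOrder.{0, 0} (Fin n)) {a b : Fin n →₀ ℕ}
    (h : (liftU m).toSyn a ≤ (liftU m).toSyn b) : m.toSyn a ≤ m.toSyn b := h

/-- the degree-lexicographic order, lifted to an arbitrary universe -/
noncomputable def degLexU.{u} (n : ℕ) : MonomialOrder.{0, u} (Fin n) := liftU MonomialOrder.degLex

theorem degLexU_mono {a b : Fin n →₀ ℕ} (h : (degLexU n).toSyn a ≤ (degLexU n).toSyn b) :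
    a.degree ≤ b.degree :=
  Finsupp.DegLex.monotone_degree (MonomialOrder.degLex_le_iff.1 (liftU_le _ h))

theorem inOrd_span
    (hA : ∀ u ∈ L, u ≠ 0 → ¬ Pos c (-u) → ∃ u' ∈ L, Pos c u' ∧ ∀ r, u' r ≤ max 0 (u r))
    (h1 : ∀ i, 0 < dot (fun _ => 1) (c i)) :
    Ideal.span {g | ∃ f ∈ latI L, f ≠ 0 ∧
      g = monomial ((degLexU n).degree f) (1 : ℚ)} = J L c := by
  have hmax : ∀ f : MvPolynomial (Fin n) ℚ, ∀ m' ∈ f.support,
      wt (fun _ => 1) m' ≤ wt (fun _ => 1) ((degLexU n).degree f) := by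
    intro f m' hm'
    rw [wt_one, wt_one]
    exact_mod_cast degLexU_mono ((degLexU n).le_degree hm')
  apply le_antisymm
  · rw [Ideal.span_le]
    rintro g ⟨f, hf, hf0, rfl⟩
    exact Ideal.subset_span
      ⟨_, max_mem_NS hA h1 hf ((degLexU n).degree_mem_support hf0) (hmax f), rfl⟩
  · rw [J, Ideal.span_le]
    rintro g ⟨a, ha, rfl⟩
    obtain ⟨b, hL, hp⟩ := NS_binom ha
    have h2 := hp _ h1
    rw [dot_dif] at h2
    have h3 := inW_binom (fun _ => 1) a b (by linarith)
    set f : MvPolynomial (Fin n) ℚ := monomial a 1 - monomial b 1 with hf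
    have hf0 : f ≠ 0 := by
      intro h
      rw [h] at h3
      simp [inW] at h3
      exact one_ne_zero (monomial_eq_zero.1 h3.symm)
    refine Ideal.subset_span ⟨f, binom_mem L a b hL, hf0, ?_⟩
    have hd := (degLexU n).degree_mem_support hf0
    set d := (degLexU n).degree f with hdd
    have h4 : coeff d (inW (fun _ => 1) f) = coeff d f := by
      classical
      rw [inW, coeff_sum, Finset.sum_eq_single d]
      · simp
      · intro m _ hm; rw [coeff_monomial, if_neg hm]
      · intro h; exact absurd (Finset.mem_filter.2 ⟨hd, hmax f⟩) h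
    rw [h3] at h4
    have h5 : a = d := by
      classical
      by_contra h
      rw [coeff_monomial, if_neg h] at h4
      exact (mem_support_iff.1 hd) h4.symm
    show monomial a 1 = _
    rw [h5]

def W : Set (Fin n → ℝ) := {w | ∀ i, 0 ≤ dot w (c i)}

theorem dot_add_smul (w v : Fin n → ℝ) (t : ℝ) (u : Fin n → ℤ) :
    dot (w + t • v) u = dot w u + t * dot v u := by
  simp only [dot, Finset.mul_sum, ← Finset.sum_add_distrib, Pi.add_apply, Pi.smul_apply,
    smul_eq_mul]
  exact Finset.sum_congr rfl fun i _ => by ring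

theorem continuous_dot (u : Fin n → ℤ) : Continuous fun w : Fin n → ℝ => dot w u := by
  unfold dot; fun_prop

theorem chamber_eq (hc : ∀ i, c i ∈ L)
    (hA : ∀ u ∈ L, u ≠ 0 → ¬ Pos c (-u) → ∃ u' ∈ L, Pos c u' ∧ ∀ r, u' r ≤ max 0 (u r))
    (hB : ∀ i, ∀ u ∈ L, Pos c u → ¬ ∀ r, u r ≤ max 0 (-c i r))
    (h1 : ∀ i, 0 < dot (fun _ => 1) (c i)) :
    closure {w : Fin n → ℝ | Ideal.span {g | ∃ f ∈ latI L, g = inW w f} =
      Ideal.span {g | ∃ f ∈ latI L, f ≠ 0 ∧
        g = monomial ((degLexU n).degree f) (1 : ℚ)}} = W (c := c) := by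
  rw [inOrd_span hA h1]
  apply Set.Subset.antisymm
  · refine closure_minimal ?_ ?_
    · intro w hw i
      by_contra hneg
      push Not at hneg
      have e : dif (pos (-c i)) (pos (c i)) = -c i := by
        funext r; simp only [dif, pos_apply, Pi.neg_apply]; omega
      have h2 : wt w (pos (c i)) < wt w (pos (-c i)) := by
        have := dot_dif w (pos (-c i)) (pos (c i))
        rw [e, dot_neg] at this
        linarith
      have h3 : monomial (pos (-c i)) (1 : ℚ) ∈ J L c := by
        rw [← (show _ = J L c from hw)]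
        exact Ideal.subset_span ⟨_, binom_mem L _ _ (e.symm ▸ L.neg_mem (hc i)),
          (inW_binom w _ _ h2).symm⟩
      rw [J, mem_ideal_span_monomial_image] at h3
      obtain ⟨a, ⟨u, hu, hp, hle⟩, ha⟩ := h3 (pos (-c i)) (by
        classical
        rw [mem_support_iff, coeff_monomial, if_pos rfl]; exact one_ne_zero)
      refine hB i u hu hp fun r => (hle r).trans ?_
      have := ha r
      simp only [pos_apply, Pi.neg_apply] at this
      omega
    · rw [W, Set.ofPred_forall]
      exact isClosed_iInter fun i => isClosed_le continuous_const (continuous_dot _)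
  · intro w hw
    have hlim : Filter.Tendsto (fun t : ℝ => w + t • (fun _ : Fin n => (1 : ℝ)))
        (nhdsWithin 0 (Set.Ioi 0)) (nhds w) := by
      have : Continuous (fun t : ℝ => w + t • (fun _ : Fin n => (1 : ℝ))) := by fun_prop
      have h2 := this.tendsto 0
      simp only [zero_smul, add_zero] at h2
      exact h2.mono_left nhdsWithin_le_nhds
    refine mem_closure_of_tendsto hlim ?_
    filter_upwards [self_mem_nhdsWithin] with t ht
    refine inW_span hA fun i => ?_
    rw [dot_add_smul]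
    have := hw i
    have := mul_pos (show (0 : ℝ) < t from ht) (h1 i)
    linarith

theorem mem_span_of_small {S : Set (Fin n → ℝ)} {w v : Fin n → ℝ} (hw : w ∈ S)
    (h : ∀ᶠ t in nhdsWithin (0 : ℝ) (Set.Ioi 0), w + t • v ∈ S) : v ∈ Submodule.span ℝ S := by
  obtain ⟨t, ht, ht0⟩ := (h.and self_mem_nhdsWithin).exists
  have ht1 : (t : ℝ) ≠ 0 := ne_of_gt ht0
  have : v = t⁻¹ • ((w + t • v) - w) := by
    rw [add_sub_cancel_left, smul_smul, inv_mul_cancel₀ ht1, one_smul]
  rw [this]
  exact Submodule.smul_mem _ _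
    (Submodule.sub_mem _ (Submodule.subset_span ht) (Submodule.subset_span hw))

theorem eventually_pos {w v : Fin n → ℝ} {u : Fin n → ℤ} (h : 0 < dot w u) :
    ∀ᶠ t in nhdsWithin (0 : ℝ) (Set.Ioi 0), 0 < dot (w + t • v) u := by
  have hc : Continuous fun t : ℝ => dot (w + t • v) u :=
    (continuous_dot u).comp (by fun_prop)
  have := hc.continuousAt (x := 0)
  refine Filter.Eventually.filter_mono nhdsWithin_le_nhds ?_
  refine this.eventually (lt_mem_nhds ?_)
  simpa using h

theorem facets (h1 : ∀ i, 0 < dot (fun _ => 1) (c i))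
    (hω : ∀ i, ∃ w, dot w (c i) = 0 ∧ ∀ j, j ≠ i → 0 < dot w (c j)) :
    (k : ℕ∞) ≤ Set.encard {F : Set (Fin n → ℝ) | ∃ a : Fin n → ℝ,
        (∀ w ∈ W (c := c), 0 ≤ ∑ i, a i * w i) ∧
        F = {w | w ∈ W (c := c) ∧ ∑ i, a i * w i = 0} ∧
        Module.finrank ℝ (Submodule.span ℝ F) + 1 =
          Module.finrank ℝ (Submodule.span ℝ (W (c := c)))} := by
  let Fc : Fin k → Set (Fin n → ℝ) := fun i => {w | w ∈ W (c := c) ∧ dot w (c i) = 0}
  choose ω hω0 hωp using hω
  have hωW : ∀ i, ω i ∈ Fc i := by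
    intro i
    refine ⟨fun j => ?_, hω0 i⟩
    by_cases h : j = i
    · rw [h, hω0]
    · exact (hωp i j h).le
  have hinj : Function.Injective Fc := by
    intro i j hij
    by_contra hne
    have h2 : ω i ∈ Fc j := hij ▸ hωW i
    exact (hωp i j (Ne.symm hne)).ne' h2.2
  have hW : Submodule.span ℝ (W (c := c)) = ⊤ := by
    rw [eq_top_iff]
    intro v _
    refine mem_span_of_small (w := fun _ => 1) (fun i => (h1 i).le) ?_
    filter_upwards [Filter.eventually_all.2 fun i => eventually_pos (v := v) (h1 i)] with t ht i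
    exact (ht i).le
  have hsub : Set.range Fc ⊆ {F : Set (Fin n → ℝ) | ∃ a : Fin n → ℝ,
        (∀ w ∈ W (c := c), 0 ≤ ∑ i, a i * w i) ∧
        F = {w | w ∈ W (c := c) ∧ ∑ i, a i * w i = 0} ∧
        Module.finrank ℝ (Submodule.span ℝ F) + 1 =
          Module.finrank ℝ (Submodule.span ℝ (W (c := c)))} := by
    rintro _ ⟨i, rfl⟩
    have hd : ∀ w : Fin n → ℝ, ∑ r, ((c i r : ℤ) : ℝ) * w r = dot w (c i) := fun w =>
      Finset.sum_congr rfl fun r _ => mul_comm _ _
    refine ⟨fun r => (c i r : ℝ), fun w hw => ?_, ?_, ?_⟩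
    · rw [hd]; exact hw i
    · simp only [hd]; rfl
    · let φ : (Fin n → ℝ) →ₗ[ℝ] ℝ :=
        { toFun := fun w => dot w (c i)
          map_add' := fun a b => by simpa using dot_add_smul a b 1 (c i)
          map_smul' := fun t a => by
            have := dot_add_smul 0 a t (c i)
            simpa [dot] using this }
      have hker : Submodule.span ℝ (Fc i) = LinearMap.ker φ := by
        apply le_antisymm
        · rw [Submodule.span_le]; exact fun w hw => hw.2
        · intro v hv
          have hv' : dot v (c i) = 0 := hv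
          refine mem_span_of_small (hωW i) ?_
          have : ∀ᶠ t in nhdsWithin (0 : ℝ) (Set.Ioi 0), ∀ j, j ≠ i →
              0 < dot (ω i + t • v) (c j) := by
            refine Filter.eventually_all.2 fun j => ?_
            by_cases h : j = i
            · simp [h]
            · filter_upwards [eventually_pos (v := v) (hωp i j h)] with t ht _ using ht
          filter_upwards [this] with t ht
          have e : dot (ω i + t • v) (c i) = 0 := by rw [dot_add_smul, hω0, hv']; simp
          refine ⟨fun j => ?_, e⟩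
          by_cases h : j = i
          · rw [h, e]
          · exact (ht j h).le
      have hφ : φ ≠ 0 := by
        intro h
        have : φ (fun _ => 1) = 0 := by rw [h]; rfl
        exact (h1 i).ne' this
      rw [hker, hW, finrank_top]
      exact Module.Dual.finrank_ker_add_one_of_ne_zero hφ
  refine le_trans ?_ (Set.encard_le_encard hsub)
  rw [← Set.image_univ, hinj.encard_image, Set.encard_univ]
  simp

end

end Pool.Agent.H559Z.Toric
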