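import Mathlib

set_option autoImplicit false

namespace Pool.Agent.H559Z.Toric

def cc (i : ℤ) : Fin 3 → ℤ := ![i, i ^ 2 - 1, 1]

def ww (i : ℤ) (y : Fin 3 → ℤ) : ℤ := y 1 + y 2 - 2 * i * y 0 + i ^ 2 * y 2

def nn (S T i : ℤ) (y : Fin 3 → ℤ) : ℤ :=
  T ^ 2 * S ^ 2 * (i * y 1 - (i ^ 2 - 1) * y 0) + (T ^ 2 * S + T) * ((i ^ 2 - 1) * y 2 - y 1) +
    (T ^ 2 + 1) * (y 0 - i * y 2)

def d3 (w : Fin 3 → ℝ) (y : Fin 3 → ℤ) : ℝ := w 0 * y 0 + w 1 * y 1 + w 2 * y 2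

theorem ww_cc (i j : ℤ) : ww i (cc j) = (i - j) ^ 2 := by simp [ww, cc]; ring
theorem nn_cc (S T i : ℤ) : nn S T i (cc i) = 0 := by
  have e0 : cc i 0 = i := rfl
  have e1 : cc i 1 = i ^ 2 - 1 := rfl
  have e2 : cc i 2 = 1 := rfl
  rw [nn, e0, e1, e2]; ring
theorem ww_add (i : ℤ) (y z : Fin 3 → ℤ) : ww i (y + z) = ww i y + ww i z := by
  simp [ww]; ring
theorem nn_add (S T i : ℤ) (y z : Fin 3 → ℤ) : nn S T i (y + z) = nn S T i y + nn S T i z := by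
  simp [nn]; ring

noncomputable def be (S T : ℤ) : ℝ := 1 / S + 1 / (T * S ^ 2)
noncomputable def ga (S T : ℤ) : ℝ := 1 / S ^ 2 + 1 / (T ^ 2 * S ^ 2)
noncomputable def XX (S T : ℤ) (y : Fin 3 → ℤ) : ℝ := y 0 - be S T * y 2
noncomputable def YY (S T : ℤ) (y : Fin 3 → ℤ) : ℝ := y 1 - ga S T * y 2
noncomputable def nu (S T i : ℤ) (y : Fin 3 → ℤ) : ℝ :=
  XX S T (cc i) * YY S T y - YY S T (cc i) * XX S T y

theorem nn_eq {S T : ℤ} (hS : S ≠ 0) (hT : T ≠ 0) (i : ℤ) (y : Fin 3 → ℤ) :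
    (nn S T i y : ℝ) = T ^ 2 * S ^ 2 * nu S T i y := by
  have hS' : (S : ℝ) ≠ 0 := by exact_mod_cast hS
  have hT' : (T : ℝ) ≠ 0 := by exact_mod_cast hT
  simp only [nn, nu, XX, YY, be, ga, cc]
  simp
  field_simp
  ring

/-- parameters -/
structure Par (K S T : ℤ) : Prop where
  hK : 1 ≤ K
  hS : 40 * K ^ 2 < S
  hT : 2000 * K ^ 4 * S ^ 2 ≤ T

section
variable {K S T : ℤ}

theorem Par.S40 (h : Par K S T) : 40 < S := by nlinarith [h.hK, h.hS]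
theorem Par.TS (h : Par K S T) : 2000 * S ^ 2 ≤ T := by
  have h1 : 1 ≤ K ^ 4 := one_le_pow₀ h.hK
  nlinarith [h.hT, sq_nonneg S]
theorem Par.T1 (h : Par K S T) : 4 * S ≤ T := by nlinarith [h.TS, h.S40]

theorem Par.be_bd (h : Par K S T) : 0 ≤ be S T ∧ be S T ≤ 1 / 12 := by
  have hS : (40 : ℝ) < S := by exact_mod_cast h.S40
  have hT : 4 * (S : ℝ) ≤ T := by exact_mod_cast h.T1
  have hT0 : (0 : ℝ) < T := by linarith
  unfold be
  refine ⟨by positivity, ?_⟩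
  have h1 : 1 / (S : ℝ) ≤ 1 / 40 := one_div_le_one_div_of_le (by norm_num) hS.le
  have h2 : 1 / ((T : ℝ) * S ^ 2) ≤ 1 / 40 := one_div_le_one_div_of_le (by norm_num) (by nlinarith)
  linarith

theorem Par.ga_bd (h : Par K S T) : 0 ≤ ga S T ∧ ga S T ≤ 1 / 12 := by
  have hS : (40 : ℝ) < S := by exact_mod_cast h.S40
  have hT : 4 * (S : ℝ) ≤ T := by exact_mod_cast h.T1
  unfold ga
  refine ⟨by positivity, ?_⟩
  have h0 : (40 : ℝ) ≤ S ^ 2 := by nlinarith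
  have h3 : (1 : ℝ) ≤ T ^ 2 := by nlinarith
  have h1 : 1 / (S : ℝ) ^ 2 ≤ 1 / 40 := one_div_le_one_div_of_le (by norm_num) h0
  have h2 : 1 / ((T : ℝ) ^ 2 * S ^ 2) ≤ 1 / 40 :=
    one_div_le_one_div_of_le (by norm_num) (by nlinarith)
  linarith

theorem generic (h : Par K S T) {z1 z2 z3 : ℤ} (h1 : |z1| < S) (h2 : |z2| < S)
    (hz : ¬ (z1 = 0 ∧ z2 = 0)) :
    T ^ 2 ≤ 2 * |T ^ 2 * S ^ 2 * z3 + (T ^ 2 * S + T) * z1 + (T ^ 2 + 1) * z2| := by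
  have hS := h.S40
  have hT := h.T1
  have hq : S ^ 2 * z3 + S * z1 + z2 ≠ 0 := by
    intro h0
    have e2 : z2 = 0 := by
      have : S ∣ z2 := ⟨-(S * z3 + z1), by linarith⟩
      exact Int.eq_zero_of_abs_lt_dvd this h2
    have e1 : z1 = 0 := by
      have : S * (S * z3 + z1) = 0 := by rw [e2] at h0; linarith
      have h4 : S * z3 + z1 = 0 := by
        rcases mul_eq_zero.1 this with h | h
        · omega
        · exact h
      exact Int.eq_zero_of_abs_lt_dvd ⟨-z3, by linarith⟩ h1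
    exact hz ⟨e1, e2⟩
  set q := S ^ 2 * z3 + S * z1 + z2 with hqd
  have e : T ^ 2 * S ^ 2 * z3 + (T ^ 2 * S + T) * z1 + (T ^ 2 + 1) * z2 =
      T ^ 2 * q + (T * z1 + z2) := by rw [hqd]; ring
  rw [e]
  have hq1 : 1 ≤ |q| := Int.one_le_abs hq
  have h5 : |T * z1 + z2| ≤ T * S + S := by
    refine (abs_add_le _ _).trans ?_
    rw [abs_mul, abs_of_nonneg (by omega : 0 ≤ T)]
    nlinarith
  have h6 : |T ^ 2 * q| - |T * z1 + z2| ≤ |T ^ 2 * q + (T * z1 + z2)| := by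
    have := abs_sub_abs_le_abs_sub (T ^ 2 * q) (-(T * z1 + z2))
    rwa [abs_neg, sub_neg_eq_add] at this
  rw [abs_mul, abs_of_nonneg (sq_nonneg T)] at h6
  nlinarith

theorem nu_lower (h : Par K S T) {i : ℤ} (hi : i ^ 2 + 2 * |i| + 2 ≤ K) {y : Fin 3 → ℤ}
    (h0 : |y 0| ≤ 20 * K) (h1 : |y 1| ≤ 20 * K) (h2 : |y 2| ≤ 20 * K) :
    y = y 2 • cc i ∨ 1 / (2 * (S : ℝ) ^ 2) ≤ |nu S T i y| := by
  by_cases hz : (i ^ 2 - 1) * y 2 - y 1 = 0 ∧ y 0 - i * y 2 = 0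
  · left
    funext r
    fin_cases r <;> simp [cc] <;> linarith [hz.1, hz.2]
  · right
    have hS := h.S40
    have hT := h.T1
    have hi0 := abs_nonneg i
    have hK := h.hK
    have hi2 : |i ^ 2 - 1| ≤ K - 1 := by
      rw [abs_le]; constructor <;> nlinarith [sq_nonneg i]
    have b1 : |(i ^ 2 - 1) * y 2 - y 1| < S := by
      refine lt_of_le_of_lt (abs_sub _ _) ?_
      rw [abs_mul]
      nlinarith [h.hS, abs_nonneg (y 2), abs_nonneg (i ^ 2 - 1)]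
    have b2 : |y 0 - i * y 2| < S := by
      refine lt_of_le_of_lt (abs_sub _ _) ?_
      rw [abs_mul]
      have : |i| ≤ K - 1 := by nlinarith [sq_nonneg i]
      nlinarith [h.hS, abs_nonneg (y 2)]
    have := generic h b1 b2 hz (z3 := i * y 1 - (i ^ 2 - 1) * y 0)
    have h3 : ((T : ℝ)) ^ 2 ≤ 2 * |(nn S T i y : ℝ)| := by
      unfold nn; exact_mod_cast this
    have hS' : (40 : ℝ) < S := by exact_mod_cast hS
    have hT' : (0 : ℝ) < T := by exact_mod_cast (by omega : 0 < T)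
    rw [nn_eq (by omega) (by omega), abs_mul, abs_of_nonneg (by positivity)] at h3
    rw [div_le_iff₀ (by positivity)]
    have h4 : (T : ℝ) ^ 2 * 1 ≤ T ^ 2 * (|nu S T i y| * (2 * S ^ 2)) := by linarith
    exact le_of_mul_le_mul_left h4 (by positivity)

theorem g_bd (h : Par K S T) {i : ℤ} (hi : i ^ 2 + 2 * |i| + 2 ≤ K) :
    |XX S T (cc i)| + |YY S T (cc i)| ≤ K ∧ 1 / 2 ≤ XX S T (cc i) ^ 2 + YY S T (cc i) ^ 2 := by
  obtain ⟨b0, b1⟩ := h.be_bd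
  obtain ⟨g0, g1⟩ := h.ga_bd
  have hi' : (i : ℝ) ^ 2 + 2 * |(i : ℝ)| + 2 ≤ K := by exact_mod_cast hi
  have eX : XX S T (cc i) = i - be S T := by simp [XX, cc]
  have eY : YY S T (cc i) = i ^ 2 - 1 - ga S T := by simp [YY, cc]
  rw [eX, eY]
  constructor
  · have h1 : |(i : ℝ) - be S T| ≤ |(i : ℝ)| + 1 / 12 := by
      refine (abs_sub _ _).trans ?_
      rw [abs_of_nonneg b0]; linarith
    have h2 : |(i : ℝ) ^ 2 - 1 - ga S T| ≤ (i : ℝ) ^ 2 + 1 + 1 / 12 := by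
      rw [abs_le]; constructor <;> nlinarith [sq_nonneg (i : ℝ)]
    linarith [abs_nonneg (i : ℝ)]
  · rcases lt_trichotomy i 0 with hi0 | hi0 | hi0
    · have : (i : ℝ) ≤ -1 := by exact_mod_cast (by omega : i ≤ -1)
      nlinarith [sq_nonneg ((i : ℝ) ^ 2 - 1 - ga S T)]
    · subst hi0; simp; nlinarith [sq_nonneg (be S T)]
    · have : (1 : ℝ) ≤ i := by exact_mod_cast (by omega : 1 ≤ i)
      nlinarith [sq_nonneg ((i : ℝ) ^ 2 - 1 - ga S T)]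

theorem ww_bd {i : ℤ} (hi : i ^ 2 + 2 * |i| + 2 ≤ K) {y : Fin 3 → ℤ} {M : ℝ}
    (h0 : |(y 0 : ℝ)| ≤ M) (h1 : |(y 1 : ℝ)| ≤ M) (h2 : |(y 2 : ℝ)| ≤ M) :
    |(ww i y : ℝ)| ≤ K * M := by
  have hi' : (i : ℝ) ^ 2 + 2 * |(i : ℝ)| + 2 ≤ K := by exact_mod_cast hi
  have hM : 0 ≤ M := (abs_nonneg _).trans h0
  have e : (ww i y : ℝ) = y 1 + y 2 - 2 * i * y 0 + i ^ 2 * y 2 := by simp [ww]
  have a1 : |2 * (i : ℝ) * y 0| ≤ 2 * |(i : ℝ)| * M := by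
    rw [abs_mul, abs_mul, abs_two]
    exact mul_le_mul_of_nonneg_left h0 (by positivity)
  have a2 : |(i : ℝ) ^ 2 * y 2| ≤ i ^ 2 * M := by
    rw [abs_mul, abs_of_nonneg (sq_nonneg _)]
    exact mul_le_mul_of_nonneg_left h2 (by positivity)
  rw [e]
  have := abs_le.1 a1
  have := abs_le.1 a2
  have := abs_le.1 h1
  have := abs_le.1 h2
  have : (i ^ 2 + 2 * |(i : ℝ)| + 2) * M ≤ K * M := mul_le_mul_of_nonneg_right hi' hM
  rw [abs_le]; constructor <;> nlinarith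

/-- a lattice point whose projection is close to a given point and whose height is controlled -/
theorem approx (h : Par K S T) (x0 y0 s0 : ℝ) (hs : 0 ≤ s0) :
    ∃ y : Fin 3 → ℤ, |XX S T y - x0| ≤ 1 / T ∧ |YY S T y - y0| ≤ 1 / T ∧
      s0 ≤ y 2 ∧ (y 2 : ℝ) ≤ S ^ 2 * (s0 + 2 * T ^ 2 + 1) := by
  have hS : (40 : ℝ) < S := by exact_mod_cast h.S40
  have hT : 4 * (S : ℝ) ≤ T := by exact_mod_cast h.T1
  have hT0 : (0 : ℝ) < T := by linarith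
  set m2 : ℤ := ⌈y0 + s0 / T ^ 2⌉ + 1 with hm2
  set s1 : ℝ := T ^ 2 * (m2 - y0) with hs1
  have a1 : s0 + T ^ 2 ≤ s1 := by
    have := Int.le_ceil (y0 + s0 / T ^ 2)
    have e : s0 = T ^ 2 * (s0 / T ^ 2) := by field_simp
    rw [hs1, hm2]; push_cast
    nlinarith [sq_nonneg (T : ℝ)]
  have a2 : s1 ≤ s0 + 2 * T ^ 2 := by
    have := Int.ceil_lt_add_one (y0 + s0 / T ^ 2)
    have e : s0 = T ^ 2 * (s0 / T ^ 2) := by field_simp
    rw [hs1, hm2]; push_cast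
    nlinarith [sq_nonneg (T : ℝ)]
  set m1 : ℤ := ⌊x0 + s1 / T⌋ with hm1
  set s2 : ℝ := T * (m1 - x0) with hs2
  have e1 : s1 = T * (s1 / T) := by field_simp
  have a3 : s2 ≤ s1 := by
    have := Int.floor_le (x0 + s1 / T)
    rw [hs2]; nlinarith
  have a4 : s1 - T ≤ s2 := by
    have := Int.lt_floor_add_one (x0 + s1 / T)
    rw [hs2]; nlinarith
  set m0 : ℤ := ⌈s2⌉ with hm0
  have a5 : s2 ≤ m0 := Int.le_ceil _
  have a6 : (m0 : ℝ) ≤ s2 + 1 := (Int.ceil_lt_add_one _).le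
  refine ⟨![m0 * S + m1, m0 + m2, m0 * S ^ 2], ?_, ?_, ?_, ?_⟩
  · have e : XX S T ![m0 * S + m1, m0 + m2, m0 * S ^ 2] - x0 = (s2 - m0) / T := by
      simp only [XX, be, hs2]; simp; field_simp; ring
    rw [e, abs_div, abs_of_pos hT0]
    gcongr
    rw [abs_le]; constructor <;> linarith
  · have e : YY S T ![m0 * S + m1, m0 + m2, m0 * S ^ 2] - y0 = (s1 - m0) / T / T := by
      simp only [YY, ga, hs1]; simp; field_simp; ring
    rw [e, abs_div, abs_of_pos hT0]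
    gcongr
    rw [abs_div, abs_of_pos hT0, div_le_one hT0, abs_le]; constructor <;> linarith
  · have : s0 ≤ m0 := by nlinarith
    have h1 : (1 : ℝ) ≤ S ^ 2 := by nlinarith
    simp; nlinarith
  · simp
    have : (m0 : ℝ) ≤ s0 + 2 * T ^ 2 + 1 := by linarith
    nlinarith [sq_nonneg (S : ℝ)]

end

end Pool.Agent.H559Z.Toric
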