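import Pool.Agent.H559Z.Toric.Core1

set_option autoImplicit false

namespace Pool.Agent.H559Z.Toric

variable {ι : Type} (ix : ι → ℤ)

def Pos3 (y : Fin 3 → ℤ) : Prop :=
  ∀ w : Fin 3 → ℝ, (∀ m, 0 < d3 w (cc (ix m))) → 0 < d3 w y

variable {ix}

theorem d3_add (w : Fin 3 → ℝ) (y z : Fin 3 → ℤ) : d3 w (y + z) = d3 w y + d3 w z := by
  simp [d3]; ring

theorem d3_smul (w : Fin 3 → ℝ) (t : ℤ) (z : Fin 3 → ℤ) : d3 w (t • z) = t * d3 w z := by
  simp [d3]; ring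

theorem pos_cc (m : ι) : Pos3 ix (cc (ix m)) := fun _ hw => hw m

theorem Pos3.add {y z : Fin 3 → ℤ} (hy : Pos3 ix y) (hz : Pos3 ix z) : Pos3 ix (y + z) :=
  fun w hw => by rw [d3_add]; exact add_pos (hy w hw) (hz w hw)

theorem Pos3.smul {z : Fin 3 → ℤ} (hz : Pos3 ix z) {t : ℤ} (ht : 0 < t) : Pos3 ix (t • z) :=
  fun w hw => by rw [d3_smul]; exact mul_pos (by exact_mod_cast ht) (hz w hw)

theorem Pos3.nonneg {y : Fin 3 → ℤ} (hy : Pos3 ix y) {w : Fin 3 → ℝ}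
    (hw : ∀ m, 0 ≤ d3 w (cc (ix m))) : 0 ≤ d3 w y := by
  by_contra hneg
  push Not at hneg
  set ε : ℝ := -d3 w y / (|(y 2 : ℝ)| + 1) with hε
  have hε0 : 0 < ε := div_pos (by linarith) (by positivity)
  have e : ∀ z, d3 (w + ![0, 0, ε]) z = d3 w z + ε * z 2 := by
    intro z; simp [d3]; ring
  have := hy (w + ![0, 0, ε]) fun m => by
    rw [e]
    have : cc (ix m) 2 = 1 := rfl
    rw [this]
    have := hw m
    push_cast; linarith
  rw [e] at this
  have h2 : ε * (|(y 2 : ℝ)| + 1) = -d3 w y := by rw [hε]; field_simp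
  have h3 : ε * y 2 ≤ ε * |(y 2 : ℝ)| := mul_le_mul_of_nonneg_left (le_abs_self _) hε0.le
  linarith

structure Idx (ix : ι → ℤ) (K : ℤ) : Prop where
  inj : Function.Injective ix
  h0 : ∃ m, ix m = 0
  h2 : ∃ m, ix m = 2
  h2' : ∃ m, ix m = -2
  bd : ∀ m, ix m ^ 2 + 2 * |ix m| + 2 ≤ K

variable {K S T : ℤ}

theorem pos_of_height (hI : Idx ix K) {y : Fin 3 → ℤ} (h2 : (0 : ℝ) < y 2)
    (h0 : 3 * |(y 0 : ℝ)| ≤ y 2) (h1 : 3 * |(y 1 : ℝ)| ≤ y 2) : Pos3 ix y := by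
  intro w hw
  obtain ⟨a, ha⟩ := hI.h0
  obtain ⟨b, hb⟩ := hI.h2
  obtain ⟨c, hc⟩ := hI.h2'
  have pa := hw a
  have pb := hw b
  have pc := hw c
  rw [ha] at pa; rw [hb] at pb; rw [hc] at pc
  have e : d3 w y = (3 * y 2 - y 1) / 4 * d3 w (cc 0) + (y 1 + y 2 + 2 * y 0) / 8 * d3 w (cc 2) +
      (y 1 + y 2 - 2 * y 0) / 8 * d3 w (cc (-2)) := by
    simp [d3, cc]; ring
  have := abs_le.1 (show |(y 0 : ℝ)| ≤ y 2 / 3 by linarith)
  have := abs_le.1 (show |(y 1 : ℝ)| ≤ y 2 / 3 by linarith)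
  rw [e]
  have t1 : 0 < (3 * (y 2 : ℝ) - y 1) / 4 * d3 w (cc 0) := mul_pos (by linarith) pa
  have t2 : 0 ≤ ((y 1 : ℝ) + y 2 + 2 * y 0) / 8 * d3 w (cc 2) := mul_nonneg (by linarith) pb.le
  have t3 : 0 ≤ ((y 1 : ℝ) + y 2 - 2 * y 0) / 8 * d3 w (cc (-2)) := mul_nonneg (by linarith) pc.le
  linarith

theorem coords_of_height (h : Par K S T) {y : Fin 3 → ℤ} (h2 : (0 : ℝ) ≤ y 2)
    (hX : 4 * |XX S T y| ≤ y 2) (hY : 4 * |YY S T y| ≤ y 2) :
    3 * |(y 0 : ℝ)| ≤ y 2 ∧ 3 * |(y 1 : ℝ)| ≤ y 2 := by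
  obtain ⟨b0, b1⟩ := h.be_bd
  obtain ⟨g0, g1⟩ := h.ga_bd
  have a1 := abs_le.1 (show |XX S T y| ≤ y 2 / 4 by linarith)
  have a2 := abs_le.1 (show |YY S T y| ≤ y 2 / 4 by linarith)
  unfold XX at a1
  unfold YY at a2
  have : |(y 0 : ℝ)| ≤ y 2 / 3 := by rw [abs_le]; constructor <;> nlinarith
  have : |(y 1 : ℝ)| ≤ y 2 / 3 := by rw [abs_le]; constructor <;> nlinarith
  constructor <;> linarith

theorem cut_bd (hI : Idx ix K) (h : Par K S T) {y : Fin 3 → ℤ} (hp : ¬ Pos3 ix y)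
    (hn : ¬ Pos3 ix (-y)) {m : ℝ} (hX : |XX S T y| ≤ m) (hY : |YY S T y| ≤ m) :
    |(y 0 : ℝ)| ≤ 4 * m ∧ |(y 1 : ℝ)| ≤ 4 * m ∧ |(y 2 : ℝ)| ≤ 4 * m := by
  have hm : 0 ≤ m := (abs_nonneg _).trans hX
  have h2 : |(y 2 : ℝ)| ≤ 4 * m := by
    by_contra hc
    push Not at hc
    rcases lt_abs.1 hc with hc | hc
    · obtain ⟨a, b⟩ := coords_of_height h (y := y) (by linarith) (by linarith) (by linarith)
      exact hp (pos_of_height hI (by linarith) a b)
    · have eX : XX S T (-y) = -XX S T y := by simp [XX]; ring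
      have eY : YY S T (-y) = -YY S T y := by simp [YY]; ring
      have e2 : (((-y) 2 : ℤ) : ℝ) = -(y 2 : ℝ) := by simp
      obtain ⟨a, b⟩ := coords_of_height h (y := -y) (by rw [e2]; linarith)
        (by rw [eX, abs_neg, e2]; linarith) (by rw [eY, abs_neg, e2]; linarith)
      exact hn (pos_of_height hI (by rw [e2]; linarith) a b)
  obtain ⟨b0, b1⟩ := h.be_bd
  obtain ⟨g0, g1⟩ := h.ga_bd
  have a1 := abs_le.1 hX
  have a2 := abs_le.1 hY
  have a3 := abs_le.1 h2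
  unfold XX at a1
  unfold YY at a2
  refine ⟨?_, ?_, h2⟩ <;> rw [abs_le] <;> constructor <;> nlinarith

/-- the rows: `σ T n_i + w_i` -/
def row (S T i σ : ℤ) (y : Fin 3 → ℤ) : ℤ := σ * T * nn S T i y + ww i y

def Below (ix : ι → ℤ) (S T : ℤ) (y' y : Fin 3 → ℤ) : Prop :=
  ∀ m, ∀ σ : ℤ, (σ = 1 ∨ σ = -1) → row S T (ix m) σ y' ≤ max 0 (row S T (ix m) σ y)

theorem Below.trans {y1 y2 y3 : Fin 3 → ℤ} (h1 : Below ix S T y1 y2) (h2 : Below ix S T y2 y3) :
    Below ix S T y1 y3 := fun m σ hσ =>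
  (h1 m σ hσ).trans (max_le (le_max_left _ _) (h2 m σ hσ))

theorem row_real (h : Par K S T) (i σ : ℤ) (y : Fin 3 → ℤ) :
    (row S T i σ y : ℝ) = σ * (T ^ 3 * S ^ 2) * nu S T i y + ww i y := by
  have := h.S40
  have := h.T1
  simp only [row]
  push_cast
  rw [nn_eq (by omega) (by omega)]
  ring

theorem le_max_real {a b : ℤ} (h : (a : ℝ) ≤ 0 ∨ (a : ℝ) ≤ b) : a ≤ max 0 b := by
  rcases h with h | h
  · exact le_max_of_le_left (by exact_mod_cast h)
  · exact le_max_of_le_right (by exact_mod_cast h)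

theorem fat (hI : Idx ix K) (h : Par K S T) {y : Fin 3 → ℤ} {m : ℝ}
    (hX : |XX S T y| ≤ m) (hY : |YY S T y| ≤ m)
    (h0 : |(y 0 : ℝ)| ≤ 4 * m) (h1 : |(y 1 : ℝ)| ≤ 4 * m) (h2 : |(y 2 : ℝ)| ≤ 4 * m)
    (hfat : ∀ j, 18 * K / T * (1 + m) ≤ |nu S T (ix j) y|) :
    ∃ y', Pos3 ix y' ∧ Below ix S T y' y := by
  have hm : 0 ≤ m := (abs_nonneg _).trans hX
  have hS : (40 : ℝ) < S := by exact_mod_cast h.S40
  have hT : 4 * (S : ℝ) ≤ T := by exact_mod_cast h.T1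
  have hK : (1 : ℝ) ≤ K := by exact_mod_cast h.hK
  have hT0 : (0 : ℝ) < T := by linarith
  have hT1 : 1 / (T : ℝ) ≤ 1 := by rw [div_le_one hT0]; linarith
  obtain ⟨y', a1, a2, a3, a4⟩ := approx h (XX S T y / 2) (YY S T y / 2) (2 * m + 4) (by linarith)
  have bX : 4 * |XX S T y'| ≤ y' 2 := by
    have := abs_le.1 a1
    have := abs_le.1 hX
    have : |XX S T y'| ≤ m / 2 + 1 := by rw [abs_le]; constructor <;> linarith
    linarith
  have bY : 4 * |YY S T y'| ≤ y' 2 := by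
    have := abs_le.1 a2
    have := abs_le.1 hY
    have : |YY S T y'| ≤ m / 2 + 1 := by rw [abs_le]; constructor <;> linarith
    linarith
  obtain ⟨c0, c1⟩ := coords_of_height h (y := y') (by linarith) bX bY
  refine ⟨y', pos_of_height hI (by linarith) c0 c1, fun j σ hσ => ?_⟩
  have hy2 : (0 : ℝ) < y' 2 := by linarith
  have w1 := ww_bd (hI.bd j) (y := y') (M := y' 2) (by linarith [abs_nonneg (y' 0 : ℝ)])
    (by linarith [abs_nonneg (y' 1 : ℝ)]) (by rw [abs_of_pos hy2])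
  have w2 := ww_bd (hI.bd j) h0 h1 h2
  have g := (g_bd h (hI.bd j)).1
  have herr : |nu S T (ix j) y' - nu S T (ix j) y / 2| ≤ K * (1 / T) := by
    have e : nu S T (ix j) y' - nu S T (ix j) y / 2 =
        XX S T (cc (ix j)) * (YY S T y' - YY S T y / 2) -
          YY S T (cc (ix j)) * (XX S T y' - XX S T y / 2) := by unfold nu; ring
    rw [e]
    refine (abs_sub _ _).trans ?_
    rw [abs_mul, abs_mul]
    have t1 := mul_le_mul_of_nonneg_left a2 (abs_nonneg (XX S T (cc (ix j))))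
    have t2 := mul_le_mul_of_nonneg_left a1 (abs_nonneg (YY S T (cc (ix j))))
    have t3 := mul_le_mul_of_nonneg_right g (show (0 : ℝ) ≤ 1 / T by positivity)
    linarith
  set lam : ℝ := T ^ 3 * S ^ 2 with hlam
  have hlam0 : 0 < lam := by positivity
  have key : lam * (K * (1 / T)) + K * y' 2 + K * (4 * m) ≤ lam * (|nu S T (ix j) y| / 2) := by
    have e1 : lam * (K * (1 / T)) = K * (T ^ 2 * S ^ 2) := by rw [hlam]; field_simp
    have e2 : lam * (18 * K / T * (1 + m) / 2) = K * (9 * (T ^ 2 * S ^ 2) * (1 + m)) := by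
      rw [hlam]; field_simp; ring
    have t1 : lam * (18 * K / T * (1 + m) / 2) ≤ lam * (|nu S T (ix j) y| / 2) := by
      have := hfat j
      gcongr
    have hS1 : (1 : ℝ) ≤ S ^ 2 := by nlinarith
    have hT2 : (5 : ℝ) ≤ T ^ 2 := by nlinarith
    have t2 : (T : ℝ) ^ 2 * S ^ 2 + S ^ 2 * (2 * m + 4 + 2 * T ^ 2 + 1) + 4 * m ≤
        9 * (T ^ 2 * S ^ 2) * (1 + m) := by
      have u1 : 5 * (S : ℝ) ^ 2 ≤ T ^ 2 * S ^ 2 := by nlinarith
      have u2 : 5 * (S : ℝ) ^ 2 * m ≤ T ^ 2 * S ^ 2 * m := mul_le_mul_of_nonneg_right u1 hm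
      have u3 : m ≤ S ^ 2 * m := by nlinarith
      nlinarith
    have t3 : (K : ℝ) * (T ^ 2 * S ^ 2 + y' 2 + 4 * m) ≤ K * (9 * (T ^ 2 * S ^ 2) * (1 + m)) :=
      mul_le_mul_of_nonneg_left (by linarith) (by linarith)
    rw [e1]
    linarith
  apply le_max_real
  rw [row_real h, row_real h, ← hlam]
  have q1 := abs_le.1 herr
  have q2 := abs_le.1 w1
  have q3 := abs_le.1 w2
  have q4 := mul_le_mul_of_nonneg_left q1.1 hlam0.le
  have q5 := mul_le_mul_of_nonneg_left q1.2 hlam0.le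
  have hKm : 0 ≤ (K : ℝ) * (4 * m) := by positivity
  rcases le_total 0 (nu S T (ix j) y) with hν | hν
  · rw [abs_of_nonneg hν] at key
    rcases hσ with rfl | rfl
    · right; push_cast; nlinarith
    · left; push_cast; nlinarith
  · rw [abs_of_nonpos hν] at key
    rcases hσ with rfl | rfl
    · left; push_cast; nlinarith
    · right; push_cast; nlinarith

/-- in the thin case with large norm, `y` is almost a large multiple of `c_i` -/
theorem thin (hI : Idx ix K) (h : Par K S T) {y : Fin 3 → ℤ} (i : ι)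
    (hm : 4 * K + 1 < max |XX S T y| |YY S T y|)
    (hthin : |nu S T (ix i) y| < 18 * K / T * (1 + max |XX S T y| |YY S T y|)) :
    ∃ t : ℝ, 2 ≤ |t| ∧ max |XX S T y| |YY S T y| ≤ 3 * K * |t| ∧
      ∀ l, l ≠ i → 1 / (2 * (S : ℝ) ^ 2) ≤ |nu S T (ix l) (cc (ix i))| ∧
        |nu S T (ix l) y - t * nu S T (ix l) (cc (ix i))| ≤
          |t| * |nu S T (ix l) (cc (ix i))| / 4 := by
  have hS : (40 : ℝ) < S := by exact_mod_cast h.S40
  have hK : (1 : ℝ) ≤ K := by exact_mod_cast h.hK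
  have hT : 2000 * (K : ℝ) ^ 4 * S ^ 2 ≤ T := by exact_mod_cast h.hT
  have hT0 : (0 : ℝ) < T := lt_of_lt_of_le (by positivity) hT
  set m := max |XX S T y| |YY S T y| with hmd
  set η : ℝ := 18 * K / T with hη
  have hη0 : 0 ≤ η := by positivity
  have hηb : η * (96 * K ^ 3 * S ^ 2) ≤ 1 := by
    rw [hη, div_mul_eq_mul_div, div_le_one hT0]
    have : (0 : ℝ) ≤ K ^ 4 * S ^ 2 := by positivity
    nlinarith
  obtain ⟨g1, g2⟩ := g_bd h (hI.bd i)
  set a := XX S T (cc (ix i)) with ha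
  set b := YY S T (cc (ix i)) with hb
  set D := a ^ 2 + b ^ 2 with hD
  have hD0 : 0 < D := by linarith
  set t := (XX S T y * a + YY S T y * b) / D with ht
  set u := nu S T (ix i) y / D with hu
  have eν : nu S T (ix i) y = a * YY S T y - b * XX S T y := rfl
  have eX : XX S T y = t * a - u * b := by
    rw [ht, hu, eν]; field_simp; rw [hD]; ring
  have eY : YY S T y = t * b + u * a := by
    rw [ht, hu, eν]; field_simp; rw [hD]; ring
  have hm0 : 0 ≤ m := (abs_nonneg _).trans (le_max_left _ _)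
  have hu1 : |u| ≤ 2 * η * (1 + m) := by
    rw [hu, abs_div, abs_of_pos hD0, div_le_iff₀ hD0]
    have : 0 ≤ η * (1 + m) := by positivity
    nlinarith
  have ha0 := abs_nonneg a
  have hb0 := abs_nonneg b
  have ht0 := abs_nonneg t
  have hu0 := abs_nonneg u
  have hmK : m ≤ K * (|t| + |u|) := by
    refine max_le ?_ ?_
    · rw [eX]
      refine (abs_sub _ _).trans ?_
      rw [abs_mul, abs_mul]; nlinarith
    · rw [eY]
      refine (abs_add_le _ _).trans ?_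
      rw [abs_mul, abs_mul]; nlinarith
  have hKη : 2 * K * η ≤ 1 / 2 := by
    have h1 : (K : ℝ) ≤ K ^ 3 := by nlinarith [mul_nonneg (sub_nonneg.2 hK) (sq_nonneg (K : ℝ))]
    have h2 : (1 : ℝ) ≤ S ^ 2 := by nlinarith
    have h3 : (K : ℝ) ≤ K ^ 3 * S ^ 2 := by nlinarith
    nlinarith
  have hm2 : m ≤ 2 * K * |t| + 1 := by
    have : (K : ℝ) * |u| ≤ K * (2 * η * (1 + m)) := mul_le_mul_of_nonneg_left hu1 (by linarith)
    nlinarith
  have ht2 : 2 ≤ |t| := by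
    by_contra hc
    push Not at hc
    nlinarith
  have hm3 : 1 + m ≤ 3 * K * |t| := by nlinarith
  refine ⟨t, ht2, by linarith, fun l hl => ?_⟩
  have hbi := hI.bd i
  have hN : 1 / (2 * (S : ℝ) ^ 2) ≤ |nu S T (ix l) (cc (ix i))| := by
    have hK' := h.hK
    have k0 := abs_nonneg (ix i)
    have k1 := sq_nonneg (ix i)
    rcases nu_lower h (hI.bd l) (y := cc (ix i)) (by show |ix i| ≤ _; omega)
      (by show |ix i ^ 2 - 1| ≤ _; rw [abs_le]; constructor <;> omega)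
      (by show |(1 : ℤ)| ≤ _; simp; omega) with h1 | h1
    · have := congrFun h1 0
      simp [cc] at this
      exact absurd (hI.inj this).symm hl
    · exact h1
  refine ⟨hN, ?_⟩
  obtain ⟨g3, -⟩ := g_bd h (hI.bd l)
  set p := XX S T (cc (ix l)) with hp
  set q := YY S T (cc (ix l)) with hq
  have e : nu S T (ix l) y - t * nu S T (ix l) (cc (ix i)) = u * (p * a + q * b) := by
    show p * YY S T y - q * XX S T y - t * (p * b - q * a) = _
    rw [eX, eY]; ring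
  have hpq : |p * a + q * b| ≤ K ^ 2 := by
    refine (abs_add_le _ _).trans ?_
    rw [abs_mul, abs_mul]
    have := abs_nonneg p
    have := abs_nonneg q
    nlinarith
  rw [e, abs_mul]
  have s1 : |u| ≤ 6 * K * η * |t| := by nlinarith
  have s2 : |u| * |p * a + q * b| ≤ 6 * K * η * |t| * K ^ 2 :=
    mul_le_mul s1 hpq (abs_nonneg _) (by positivity)
  have s3 : 6 * K * η * K ^ 2 ≤ 1 / (2 * (S : ℝ) ^ 2) / 4 := by
    rw [div_div, le_div_iff₀ (by positivity)]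
    nlinarith
  have s4 : |t| * (6 * K * η * K ^ 2) ≤ |t| * (|nu S T (ix l) (cc (ix i))| / 4) :=
    mul_le_mul_of_nonneg_left (by linarith) ht0
  linarith

end Pool.Agent.H559Z.Toric
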