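import Pool.Agent.H559Z.Toric.Core2

set_option autoImplicit false

namespace Pool.Agent.H559Z.Toric

variable {ι : Type} {ix : ι → ℤ} {K S T : ℤ}

theorem real_step {lam N ν t wy wc A : ℝ} (hlam : 0 < lam) (ht : 2 ≤ |t|)
    (hν : |ν - t * N| ≤ |t| * |N| / 4) (hA : 0 ≤ A) (hwy : |wy| ≤ A * |t|) (hwc : |wc| ≤ A)
    (hbig : 8 * A ≤ lam * |N|) (σ : ℝ) (hσ : σ = 1 ∨ σ = -1) :
    (0 < t → σ * lam * N + wc ≤ 0 ∨ σ * lam * N + wc ≤ σ * lam * ν + wy) ∧
    (t < 0 → σ * lam * (ν + N) + (wy + wc) ≤ 0 ∨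
      σ * lam * (ν + N) + (wy + wc) ≤ σ * lam * ν + wy) := by
  have q1 := abs_le.1 hν
  have q2 := abs_le.1 hwy
  have q3 := abs_le.1 hwc
  have q4 := mul_le_mul_of_nonneg_left q1.1 hlam.le
  have q5 := mul_le_mul_of_nonneg_left q1.2 hlam.le
  have q6 : 8 * A * |t| ≤ lam * |N| * |t| := mul_le_mul_of_nonneg_right hbig (abs_nonneg _)
  have q7 : lam * |N| * 2 ≤ lam * |N| * |t| := mul_le_mul_of_nonneg_left ht (by positivity)
  have q8 : A * 2 ≤ A * |t| := mul_le_mul_of_nonneg_left ht hA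
  constructor
  · intro h0
    rw [abs_of_pos h0] at *
    rcases le_total 0 N with hN | hN
    · rw [abs_of_nonneg hN] at *
      rcases hσ with rfl | rfl
      · right; nlinarith
      · left; nlinarith
    · rw [abs_of_nonpos hN] at *
      rcases hσ with rfl | rfl
      · left; nlinarith
      · right; nlinarith
  · intro h0
    rw [abs_of_neg h0] at *
    rcases le_total 0 N with hN | hN
    · rw [abs_of_nonneg hN] at *
      rcases hσ with rfl | rfl
      · left; nlinarith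
      · right; nlinarith
    · rw [abs_of_nonpos hN] at *
      rcases hσ with rfl | rfl
      · right; nlinarith
      · left; nlinarith

theorem real_dec {N ν t : ℝ} (ht : 2 ≤ |t|) (h0 : t < 0) (hN : 0 < |N|)
    (hν : |ν - t * N| ≤ |t| * |N| / 4) : |ν + N| < |ν| := by
  have q1 := abs_le.1 hν
  rw [abs_of_neg h0] at *
  rcases lt_abs.1 hN with h | h
  · rw [abs_of_pos h] at *
    have : ν + N < 0 := by nlinarith
    rw [abs_of_neg this, abs_of_neg (by linarith)]; linarith
  · have h' : N < 0 := by linarith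
    rw [abs_of_neg h'] at *
    have : 0 < ν + N := by nlinarith
    rw [abs_of_pos this, abs_of_pos (by linarith)]; linarith

theorem nu_add (S T i : ℤ) (y z : Fin 3 → ℤ) : nu S T i (y + z) = nu S T i y + nu S T i z := by
  simp [nu, XX, YY]; ring

theorem nu_cc (S T i : ℤ) : nu S T i (cc i) = 0 := by simp [nu]; ring

theorem step [Fintype ι] (hI : Idx ix K) (h : Par K S T) {y : Fin 3 → ℤ} (hy : y ≠ 0)
    (hn : ¬ Pos3 ix (-y)) :
    (∃ y', Pos3 ix y' ∧ Below ix S T y' y) ∨
      ∃ i, Below ix S T (y + cc (ix i)) y ∧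
        ∑ l, (nn S T (ix l) (y + cc (ix i))).natAbs < ∑ l, (nn S T (ix l) y).natAbs := by
  by_cases hp : Pos3 ix y
  · exact Or.inl ⟨y, hp, fun m σ _ => le_max_right _ _⟩
  set m := max |XX S T y| |YY S T y| with hm
  obtain ⟨c0, c1, c2⟩ := cut_bd hI h hp hn (m := m) (le_max_left _ _) (le_max_right _ _)
  by_cases hfat : ∀ j, 18 * K / T * (1 + m) ≤ |nu S T (ix j) y|
  · exact Or.inl (fat hI h (le_max_left _ _) (le_max_right _ _) c0 c1 c2 hfat)
  push Not at hfat
  obtain ⟨i, hi⟩ := hfat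
  have hS : (40 : ℝ) < S := by exact_mod_cast h.S40
  have hK : (1 : ℝ) ≤ K := by exact_mod_cast h.hK
  have hT : 2000 * (K : ℝ) ^ 4 * S ^ 2 ≤ T := by exact_mod_cast h.hT
  have hT0 : (0 : ℝ) < T := lt_of_lt_of_le (by positivity) hT
  have hK2 : (K : ℝ) ^ 2 ≤ K ^ 4 := pow_le_pow_right₀ hK (by norm_num)
  by_cases hsmall : m ≤ 4 * K + 1
  · exfalso
    have b : ∀ r : ℤ, |(r : ℝ)| ≤ 4 * m → |r| ≤ 20 * K := by
      intro r hr
      have : |(r : ℝ)| ≤ 20 * K := by linarith
      exact_mod_cast this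
    rcases nu_lower h (hI.bd i) (b _ c0) (b _ c1) (b _ c2) with h1 | h1
    · rcases lt_trichotomy (y 2) 0 with h2 | h2 | h2
      · apply hn
        rw [h1, ← neg_smul]
        exact (pos_cc i).smul (by omega)
      · rw [h2, zero_smul] at h1; exact hy h1
      · apply hp
        rw [h1]
        exact (pos_cc i).smul h2
    · have h3 : 18 * (K : ℝ) / T * (1 + m) ≤ 18 * K / T * (6 * K) :=
        mul_le_mul_of_nonneg_left (by linarith) (by positivity)
      have h4 : 18 * (K : ℝ) / T * (6 * K) ≤ 1 / (2 * S ^ 2) := by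
        rw [div_mul_eq_mul_div, div_le_div_iff₀ hT0 (by positivity)]
        have : (K : ℝ) ^ 2 * S ^ 2 ≤ K ^ 4 * S ^ 2 := mul_le_mul_of_nonneg_right hK2 (by positivity)
        have : (0 : ℝ) ≤ K ^ 2 * S ^ 2 := by positivity
        nlinarith
      linarith
  push Not at hsmall
  obtain ⟨t, ht2, hmt, hl⟩ := thin hI h i hsmall hi
  rw [← hm] at hmt
  set lam : ℝ := T ^ 3 * S ^ 2 with hlam
  have hlam0 : 0 < lam := by positivity
  have hstep : ∀ l, l ≠ i → ∀ σ : ℝ, (σ = 1 ∨ σ = -1) →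
      (0 < t → σ * lam * nu S T (ix l) (cc (ix i)) + ww (ix l) (cc (ix i)) ≤ 0 ∨
        σ * lam * nu S T (ix l) (cc (ix i)) + ww (ix l) (cc (ix i)) ≤
          σ * lam * nu S T (ix l) y + ww (ix l) y) ∧
      (t < 0 → σ * lam * (nu S T (ix l) y + nu S T (ix l) (cc (ix i))) +
          (ww (ix l) y + ww (ix l) (cc (ix i))) ≤ 0 ∨
        σ * lam * (nu S T (ix l) y + nu S T (ix l) (cc (ix i))) +
          (ww (ix l) y + ww (ix l) (cc (ix i))) ≤ σ * lam * nu S T (ix l) y + ww (ix l) y) := by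
    intro l hli σ hσ
    obtain ⟨n1, n2⟩ := hl l hli
    refine real_step (A := 12 * K ^ 2) hlam0 ht2 n2 (by positivity) ?_ ?_ ?_ σ hσ
    · have := ww_bd (hI.bd l) c0 c1 c2
      nlinarith
    · have hb : ((ix i : ℝ)) ^ 2 + 2 * |(ix i : ℝ)| + 2 ≤ K := by exact_mod_cast hI.bd i
      have k0 := abs_nonneg (ix i : ℝ)
      have k1 := sq_nonneg (ix i : ℝ)
      have := ww_bd (hI.bd l) (y := cc (ix i)) (M := K)
        (by show |((ix i : ℤ) : ℝ)| ≤ _; linarith)
        (by show |((ix i ^ 2 - 1 : ℤ) : ℝ)| ≤ _; push_cast; rw [abs_le]; constructor <;> linarith)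
        (by show |((1 : ℤ) : ℝ)| ≤ _; simp; exact_mod_cast h.hK)
      nlinarith
    · have e : lam * (1 / (2 * (S : ℝ) ^ 2)) = T ^ 3 / 2 := by rw [hlam]; field_simp
      have h5 := mul_le_mul_of_nonneg_left n1 hlam0.le
      have h6 : 2000 * (K : ℝ) ^ 2 ≤ T := by
        have : (K : ℝ) ^ 4 * 1 ≤ K ^ 4 * S ^ 2 :=
          mul_le_mul_of_nonneg_left (by nlinarith) (by positivity)
        nlinarith
      have h7 : (1 : ℝ) ≤ T := by nlinarith
      have h8 : (T : ℝ) ≤ T ^ 3 := le_self_pow₀ h7 (by norm_num)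
      nlinarith
  have hσr : ∀ σ : ℤ, (σ = 1 ∨ σ = -1) → ((σ : ℝ) = 1 ∨ (σ : ℝ) = -1) := by
    rintro σ (rfl | rfl) <;> simp
  rcases lt_trichotomy t 0 with ht | ht | ht
  · right
    refine ⟨i, fun l σ hσ => ?_, ?_⟩
    · by_cases hli : l = i
      · subst hli
        apply le_max_of_le_right
        simp [row, nn_add, ww_add, nn_cc, ww_cc]
      · apply le_max_real
        rw [row_real h, row_real h, ← hlam, nu_add, ww_add]
        push_cast
        exact (hstep l hli σ (hσr σ hσ)).2 ht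
    · have hlt : ∀ l, l ≠ i →
          (nn S T (ix l) (y + cc (ix i))).natAbs < (nn S T (ix l) y).natAbs := by
        intro l hli
        obtain ⟨n1, n2⟩ := hl l hli
        have h1 := real_dec ht2 ht (lt_of_lt_of_le (by positivity) n1) n2
        have hS0 : S ≠ 0 := by have := h.S40; omega
        have hT1 : T ≠ 0 := by have := h.S40; have := h.T1; omega
        have h2 : |(nn S T (ix l) (y + cc (ix i)) : ℝ)| < |(nn S T (ix l) y : ℝ)| := by
          have hS1 : (0 : ℝ) < S := by linarith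
          have hpos : (0 : ℝ) < T ^ 2 * S ^ 2 := by positivity
          rw [nn_eq hS0 hT1, nn_eq hS0 hT1, abs_mul ((T : ℝ) ^ 2 * S ^ 2),
            abs_mul ((T : ℝ) ^ 2 * S ^ 2), nu_add, abs_of_pos hpos]
          exact mul_lt_mul_of_pos_left h1 hpos
        have h3 : |nn S T (ix l) (y + cc (ix i))| < |nn S T (ix l) y| := by exact_mod_cast h2
        rw [Int.abs_eq_natAbs, Int.abs_eq_natAbs] at h3
        exact_mod_cast h3
      refine Finset.sum_lt_sum (fun l _ => ?_) ?_
      · by_cases hli : l = i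
        · subst hli; rw [nn_add, nn_cc, add_zero]
        · exact (hlt l hli).le
      · obtain ⟨a, ha⟩ := hI.h0
        obtain ⟨b, hb⟩ := hI.h2
        by_cases hai : a = i
        · refine ⟨b, Finset.mem_univ _, hlt b ?_⟩
          rintro rfl
          rw [hai, hb] at ha; omega
        · exact ⟨a, Finset.mem_univ _, hlt a hai⟩
  · rw [ht] at ht2; norm_num at ht2
  · left
    refine ⟨cc (ix i), pos_cc i, fun l σ hσ => ?_⟩
    by_cases hli : l = i
    · subst hli
      apply le_max_of_le_left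
      simp [row, nn_cc, ww_cc]
    · apply le_max_real
      rw [row_real h, row_real h, ← hlam]
      exact (hstep l hli σ (hσr σ hσ)).1 ht

theorem claimA [Fintype ι] (hI : Idx ix K) (h : Par K S T) (y : Fin 3 → ℤ) (hy : y ≠ 0)
    (hn : ¬ Pos3 ix (-y)) : ∃ y', Pos3 ix y' ∧ Below ix S T y' y := by
  induction hN : ∑ l, (nn S T (ix l) y).natAbs using Nat.strong_induction_on generalizing y with
  | _ N ih =>
    rcases step hI h hy hn with h1 | ⟨i, hb, hlt⟩
    · exact h1
    · obtain ⟨y', hp, hb'⟩ := ih _ (hN ▸ hlt) (y + cc (ix i))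
        (fun h0 => hn (by rw [neg_eq_of_add_eq_zero_right h0]; exact pos_cc i))
        (fun h0 => hn (by
          have := h0.add (pos_cc i)
          rwa [show -(y + cc (ix i)) + cc (ix i) = -y by abel] at this)) rfl
      exact ⟨y', hp, hb'.trans hb⟩

theorem ww_nonneg {y : Fin 3 → ℤ} (hp : Pos3 ix y) (i : ℤ) : 0 ≤ ww i y := by
  have e : ∀ z, d3 ![-2 * i, 1, 1 + i ^ 2] z = ww i z := by
    intro z; simp [d3, ww]; ring
  have := hp.nonneg (w := ![-2 * i, 1, 1 + i ^ 2]) fun m => by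
    rw [e, ww_cc]; push_cast; positivity
  rw [e] at this
  exact_mod_cast this

theorem claimB (hI : Idx ix K) (h : Par K S T) (i : ι) (y : Fin 3 → ℤ) (hp : Pos3 ix y) :
    ¬ Below ix S T y (-cc (ix i)) := by
  intro hb
  have hS := h.S40
  have hT := h.T1
  have hK := h.hK
  have rneg : ∀ j σ z, row S T j σ (-z) = -row S T j σ z := by
    intro j σ z; simp [row, nn, ww]; ring
  have r0 : ∀ σ, row S T (ix i) σ (-cc (ix i)) = 0 := by
    intro σ; rw [rneg]; simp [row, nn_cc, ww_cc]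
  have b1 := hb i 1 (Or.inl rfl)
  have b2 := hb i (-1) (Or.inr rfl)
  rw [r0, max_self, row] at b1 b2
  have w0 := ww_nonneg hp (ix i)
  have hw : ww (ix i) y = 0 := by linarith
  have hn : nn S T (ix i) y = 0 := by
    rw [hw] at b1 b2
    have : T * nn S T (ix i) y = 0 := by linarith
    rcases mul_eq_zero.1 this with h1 | h1
    · omega
    · exact h1
  -- `y` is a multiple of `c_i`
  have hbd := hI.bd i
  set j := ix i with hj
  have hz : y 0 - j * y 2 = 0 := by
    have e1 : y 1 = 2 * j * (y 0 - j * y 2) + (j ^ 2 - 1) * y 2 := by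
      unfold ww at hw; linarith
    have e2 : nn S T j y = (y 0 - j * y 2) *
        (T ^ 2 * S ^ 2 * (j ^ 2 + 1) - 2 * j * (T ^ 2 * S + T) + (T ^ 2 + 1)) := by
      unfold nn; rw [e1]; ring
    rw [e2] at hn
    rcases mul_eq_zero.1 hn with h1 | h1
    · exact h1
    · exfalso
      have p1 : 2 * j ≤ j ^ 2 + 1 := by nlinarith [sq_nonneg (j - 1)]
      have p2 : T ^ 2 * S + T ≤ T ^ 2 * S ^ 2 := by
        have : T ≤ T ^ 2 := by nlinarith
        have : T ^ 2 * (S + 1) ≤ T ^ 2 * S ^ 2 :=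
          mul_le_mul_of_nonneg_left (by nlinarith) (sq_nonneg _)
        nlinarith
      have p3 : 0 ≤ T ^ 2 * S + T := by
        have : 0 ≤ T ^ 2 * S := mul_nonneg (sq_nonneg _) (by omega)
        omega
      have p4 : 2 * j * (T ^ 2 * S + T) ≤ (j ^ 2 + 1) * (T ^ 2 * S + T) :=
        mul_le_mul_of_nonneg_right p1 p3
      have p5 : (j ^ 2 + 1) * (T ^ 2 * S + T) ≤ (j ^ 2 + 1) * (T ^ 2 * S ^ 2) :=
        mul_le_mul_of_nonneg_left p2 (by positivity)
      nlinarith [sq_nonneg T]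
  have hy : y = y 2 • cc j := by
    have e1 : y 1 = (j ^ 2 - 1) * y 2 := by
      unfold ww at hw
      have : y 0 = j * y 2 := by linarith
      rw [this] at hw; linarith
    funext r
    fin_cases r <;> simp [cc] <;> linarith
  have hy2 : 0 < y 2 := by
    have := hp ![0, 0, 1] fun m => by simp [d3, cc]
    simp [d3] at this
    exact this
  obtain ⟨l, hl⟩ : ∃ l, ix l ≠ j := by
    obtain ⟨a, ha⟩ := hI.h0
    obtain ⟨b, hb⟩ := hI.h2
    by_cases hj0 : j = 0
    · exact ⟨b, by omega⟩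
    · exact ⟨a, by omega⟩
  have rs : ∀ σ, row S T (ix l) σ y = y 2 * row S T (ix l) σ (cc j) := by
    intro σ
    conv_lhs => rw [hy]
    simp [row, nn, ww]; ring
  have key : ∀ σ : ℤ, (σ = 1 ∨ σ = -1) → row S T (ix l) σ (cc j) ≤ 0 := by
    intro σ hσ
    have := hb l σ hσ
    rw [rs, rneg] at this
    by_contra hc
    push Not at hc
    rw [max_eq_left (by omega)] at this
    nlinarith
  have k1 := key 1 (Or.inl rfl)
  have k2 := key (-1) (Or.inr rfl)
  rw [row, ww_cc] at k1 k2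
  have : 0 < (ix l - j) ^ 2 := by
    have : ix l - j ≠ 0 := sub_ne_zero.2 hl
    positivity
  linarith

end Pool.Agent.H559Z.Toric
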