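import Pool.Agent.H559Z.Toric.Core3
import Pool.Agent.H559Z.Toric.Abstract

set_option autoImplicit false

namespace Pool.Agent.H559Z.Toric

/-- all the rows of the matrix -/
def rows {ι : Type} (ix : ι → ℤ) (S T : ℤ) (y : Fin 3 → ℤ) : (ι × Bool) ⊕ Fin 3 → ℤ
  | .inl (m, true) => row S T (ix m) 1 y
  | .inl (m, false) => row S T (ix m) (-1) y
  | .inr j => ![-(y 0 + 2 * y 2), -(y 1 + y 2), -y 2] j

def rowsL {ι : Type} (ix : ι → ℤ) (S T : ℤ) : (Fin 3 → ℤ) →ₗ[ℤ] ((ι × Bool) ⊕ Fin 3 → ℤ) where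
  toFun := rows ix S T
  map_add' y z := by
    funext r
    rcases r with ⟨m, _ | _⟩ | j
    · simp [rows, row, nn, ww]; ring
    · simp [rows, row, nn, ww]; ring
    · fin_cases j <;> simp [rows] <;> ring
  map_smul' t z := by
    funext r
    rcases r with ⟨m, _ | _⟩ | j
    · simp [rows, row, nn, ww]; ring
    · simp [rows, row, nn, ww]; ring
    · fin_cases j <;> simp [rows] <;> ring

theorem exists_lattice (B : ℕ) :
    ∃ (n : ℕ) (L : Submodule ℤ (Fin n → ℤ)) (c : Fin (B + 5) → Fin n → ℤ),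
      Module.finrank ℤ L = 3 ∧
      (∀ v : Fin n → ℤ, ∀ a : ℤ, a ≠ 0 → a • v ∈ L → v ∈ L) ∧
      (∀ v ∈ L, (∀ i, 0 ≤ v i) → v = 0) ∧
      (∀ i, c i ∈ L) ∧
      (∀ u ∈ L, u ≠ 0 → ¬ Pos c (-u) → ∃ u' ∈ L, Pos c u' ∧ ∀ r, u' r ≤ max 0 (u r)) ∧
      (∀ i, ∀ u ∈ L, Pos c u → ¬ ∀ r, u r ≤ max 0 (-c i r)) ∧
      (∀ i, 0 < dot (fun _ => 1) (c i)) ∧
      (∀ i, ∃ w, dot w (c i) = 0 ∧ ∀ j, j ≠ i → 0 < dot w (c j)) := by
  classical
  let ix : Fin (B + 5) → ℤ := fun m => (m : ℤ) - 2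
  set K : ℤ := ((B : ℤ) + 5) ^ 2 + 2 * (B + 5) + 2 with hK
  set S : ℤ := 40 * K ^ 2 + 1 with hS
  set T : ℤ := 2000 * K ^ 4 * S ^ 2 with hT
  have hP : Par K S T := ⟨by rw [hK]; nlinarith [Int.natCast_nonneg B, sq_nonneg ((B : ℤ) + 5)],
    by omega, le_rfl⟩
  have hI : Idx ix K := by
    refine ⟨fun a b hab => ?_, ⟨⟨2, by omega⟩, by simp [ix]⟩, ⟨⟨4, by omega⟩, by simp [ix]⟩,
      ⟨⟨0, by omega⟩, by simp [ix]⟩, fun m => ?_⟩
    · simp only [ix] at hab; ext; omega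
    · have h1 : |ix m| ≤ B + 5 := by
        have := m.2
        simp only [ix]; rw [abs_le]; constructor <;> omega
      have h2 : ix m ^ 2 ≤ ((B : ℤ) + 5) ^ 2 := by
        rw [← sq_abs]; exact pow_le_pow_left₀ (abs_nonneg _) h1 2
      linarith
  clear_value K S T
  set ι := (Fin (B + 5) × Bool) ⊕ Fin 3 with hι
  let e : Fin (Fintype.card ι) ≃ ι := (Fintype.equivFin ι).symm
  let Φ : (Fin 3 → ℤ) →ₗ[ℤ] (Fin (Fintype.card ι) → ℤ) :=
    (LinearMap.funLeft ℤ ℤ e).comp (rowsL ix S T)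
  have hΦ : ∀ y r, Φ y r = rows ix S T y (e r) := fun _ _ => rfl
  have hΦ' : ∀ y r, Φ y (e.symm r) = rows ix S T y r := fun y r => by rw [hΦ, e.apply_symm_apply]
  have c0 : ∀ y, Φ y (e.symm (.inr 0)) = -(y 0 + 2 * y 2) := fun y => hΦ' y _
  have c1 : ∀ y, Φ y (e.symm (.inr 1)) = -(y 1 + y 2) := fun y => hΦ' y _
  have c2 : ∀ y, Φ y (e.symm (.inr 2)) = -y 2 := fun y => hΦ' y _
  have hinj : Function.Injective Φ := by
    rw [injective_iff_map_eq_zero]
    intro y hy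
    have a0 := c0 y
    have a1 := c1 y
    have a2 := c2 y
    rw [hy, Pi.zero_apply] at a0 a1 a2
    funext r
    fin_cases r <;> simp <;> omega
  have hdot : ∀ (w : Fin (Fintype.card ι) → ℝ) y,
      dot w (Φ y) = ∑ r : ι, w (e.symm r) * (rows ix S T y r : ℝ) := by
    intro w y
    rw [dot, ← e.symm.sum_comp]
    simp only [hΦ']
  -- transposes
  have htr : ∀ w : Fin (Fintype.card ι) → ℝ, ∃ w3 : Fin 3 → ℝ, ∀ y, dot w (Φ y) = d3 w3 y := by
    intro w
    refine ⟨fun j => dot w (Φ (Pi.single j 1)), fun y => ?_⟩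
    have hy : y = y 0 • Pi.single 0 1 + y 1 • Pi.single 1 1 + y 2 • Pi.single 2 1 := by
      funext r; fin_cases r <;> simp
    conv_lhs => rw [hy]
    simp only [map_add, map_smul, dot, d3, Pi.add_apply, Pi.smul_apply, smul_eq_mul,
      Finset.sum_mul, ← Finset.sum_add_distrib]
    refine Finset.sum_congr rfl fun r _ => ?_
    push_cast; ring
  have hsurj : ∀ w3 : Fin 3 → ℝ, ∃ w : Fin (Fintype.card ι) → ℝ, ∀ y, dot w (Φ y) = d3 w3 y := by
    intro w3
    refine ⟨fun r => Sum.elim (fun _ => 0) ![-w3 0, -w3 1, -(w3 2 - 2 * w3 0 - w3 1)] (e r),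
      fun y => ?_⟩
    rw [hdot]
    simp only [Equiv.apply_symm_apply]
    rw [Fintype.sum_sum_type]
    simp [Fin.sum_univ_three, rows, d3]
    ring
  have hpos : ∀ y, Pos (fun i => Φ (cc (ix i))) (Φ y) ↔ Pos3 ix y := by
    intro y
    constructor
    · intro h w3 hw
      obtain ⟨w, hw'⟩ := hsurj w3
      rw [← hw']
      exact h w fun i => by rw [hw']; exact hw i
    · intro h w hw
      obtain ⟨w3, hw'⟩ := htr w
      rw [hw']
      exact h w3 fun i => by rw [← hw']; exact hw i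
  have hbelow : ∀ y' y, Pos3 ix y' → (Below ix S T y' y ↔ ∀ r, Φ y' r ≤ max 0 (Φ y r)) := by
    intro y' y hp
    constructor
    · intro h r
      rw [hΦ, hΦ]
      rcases e r with ⟨m, _ | _⟩ | j
      · exact h m (-1) (Or.inr rfl)
      · exact h m 1 (Or.inl rfl)
      · apply le_max_of_le_left
        have p0 := hp.nonneg (w := ![1, 0, 2]) fun m => by
          have : (0 : ℝ) ≤ (m : ℕ) := Nat.cast_nonneg _
          simp [d3, cc, ix]
        have p1 := hp.nonneg (w := ![0, 1, 1]) fun m => by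
          simp [d3, cc]; positivity
        have p2 := hp.nonneg (w := ![0, 0, 1]) fun m => by simp [d3, cc]
        simp [d3] at p0 p1 p2
        have p0' : 0 ≤ y' 0 + 2 * y' 2 := by exact_mod_cast p0
        have p1' : 0 ≤ y' 1 + y' 2 := by exact_mod_cast p1
        fin_cases j <;> simp [rows] <;> omega
    · intro h m σ hσ
      rcases hσ with rfl | rfl
      · have := h (e.symm (.inl (m, true)))
        rwa [hΦ', hΦ'] at this
      · have := h (e.symm (.inl (m, false)))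
        rwa [hΦ', hΦ'] at this
  refine ⟨Fintype.card ι, LinearMap.range Φ, fun i => Φ (cc (ix i)), ?_, ?_, ?_, ?_, ?_, ?_, ?_, ?_⟩
  · rw [LinearMap.finrank_range_of_inj hinj]; simp
  · rintro v a ha ⟨y, hy⟩
    set v0 := v (e.symm (.inr 0))
    set v1 := v (e.symm (.inr 1))
    set v2 := v (e.symm (.inr 2))
    have a0 := c0 y
    have a1 := c1 y
    have a2 := c2 y
    rw [hy, Pi.smul_apply, smul_eq_mul] at a0 a1 a2
    have : y = a • ![-v0 + 2 * v2, -v1 + v2, -v2] := by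
      funext r
      fin_cases r <;> simp <;> linarith
    refine ⟨![-v0 + 2 * v2, -v1 + v2, -v2], ?_⟩
    rw [this, map_smul] at hy
    exact smul_right_injective _ ha hy
  · rintro v ⟨y, rfl⟩ hv
    have a1 := c1 y ▸ hv (e.symm (.inr 1))
    have a2 := c2 y ▸ hv (e.symm (.inr 2))
    have hw : ∀ m, 0 ≤ ww (ix m) y := by
      intro m
      have b1 := hv (e.symm (.inl (m, true)))
      have b2 := hv (e.symm (.inl (m, false)))
      rw [hΦ'] at b1 b2
      simp only [rows, row] at b1 b2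
      linarith
    obtain ⟨a, ha⟩ := hI.h0
    obtain ⟨b, hb⟩ := hI.h2
    obtain ⟨c, hc⟩ := hI.h2'
    have wa := hw a
    have wb := hw b
    have wc := hw c
    rw [ha] at wa; rw [hb] at wb; rw [hc] at wc
    simp only [ww] at wa wb wc
    have : y = 0 := by
      funext r
      fin_cases r <;> simp <;> omega
    rw [this, map_zero]
  · exact fun i => ⟨_, rfl⟩
  · rintro u ⟨y, rfl⟩ hu hn
    rw [← map_neg, hpos] at hn
    obtain ⟨y', hp, hb⟩ := claimA hI hP y (fun h => hu (by rw [h, map_zero])) hn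
    exact ⟨Φ y', ⟨_, rfl⟩, (hpos y').2 hp, (hbelow y' y hp).1 hb⟩
  · rintro i u ⟨y, rfl⟩ hp hle
    rw [hpos] at hp
    refine claimB hI hP i y hp ((hbelow _ _ hp).2 fun r => ?_)
    rw [map_neg]; exact hle r
  · intro i
    rw [hdot, Fintype.sum_sum_type, Fintype.sum_prod_type]
    simp only [one_mul, Fintype.sum_bool, rows, row, ww_cc, Fin.sum_univ_three]
    have e1 : ∀ m : Fin (B + 5),
        (((1 * T * nn S T (ix m) (cc (ix i)) + (ix m - ix i) ^ 2 : ℤ) : ℝ) +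
          ((-1 * T * nn S T (ix m) (cc (ix i)) + (ix m - ix i) ^ 2 : ℤ) : ℝ)) =
          2 * ((ix m : ℝ) - ix i) ^ 2 := by
      intro m; push_cast; ring
    simp only [one_mul] at e1
    simp only [e1]
    have hsub : ({⟨0, by omega⟩, ⟨2, by omega⟩, ⟨4, by omega⟩} : Finset (Fin (B + 5))) ⊆
      Finset.univ := Finset.subset_univ _
    have h2 := Finset.sum_le_sum_of_subset_of_nonneg hsub
      (f := fun m => 2 * ((ix m : ℝ) - ix i) ^ 2) (fun _ _ _ => by positivity)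
    rw [Finset.sum_insert (by simp), Finset.sum_pair (by simp)] at h2
    have x0 : ix ⟨0, by omega⟩ = -2 := by simp [ix]
    have x2 : ix ⟨2, by omega⟩ = 0 := by simp [ix]
    have x4 : ix ⟨4, by omega⟩ = 2 := by simp [ix]
    rw [x0, x2, x4] at h2
    simp [cc] at h2 ⊢
    nlinarith [sq_nonneg ((ix i : ℝ) - 1), sq_nonneg (ix i : ℝ)]
  · intro i
    obtain ⟨w, hw⟩ := hsurj ![-2 * ix i, 1, 1 + ix i ^ 2]
    have e1 : ∀ z, d3 ![-2 * ix i, 1, 1 + ix i ^ 2] z = ww (ix i) z := by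
      intro z; simp [d3, ww]; ring
    refine ⟨w, by rw [hw, e1, ww_cc]; simp, fun j hj => ?_⟩
    rw [hw, e1, ww_cc]
    have : ix i - ix j ≠ 0 := sub_ne_zero.2 fun h => hj (hI.inj h).symm
    have : 0 < (ix i - ix j) ^ 2 := by positivity
    exact_mod_cast this

end Pool.Agent.H559Z.Toric
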